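import Pool.Agent.H36.NX.TensHom
import Pool.Agent.H36.NX.Push
import Pool.Agent.H15.NC.TensQ

/-!
# Sep : dg maps of a dg algebra to the matrices over a commutative algebra `T`, and separability

`MT A T` : a map `A → M_2(T)` of dg algebras (the differential of `M_2(T)` is zero). Columns, rows and matrices over `T`
are dg modules over `A`. If `T` has a separability element, the bimodule of matrices is a direct factor of the product
of columns and rows.
-/

set_option autoImplicit false

open NC
open scoped TensorProduct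

noncomputable section

namespace H82.EE

variable {k : Type} [Field k]

/-- the product of a left and of a right module -/
def tB {A B : DGA k} {X Y : SD k} (a : LA A X) (ha : ∀ x, a.act 1 x = x)
    (b : RA B Y) (hb : ∀ y, b.act y 1 = y) : BMod A B where
  N := X.tens Y
  b := Bi.tensLR a b
  one_l := fun v => by
    refine tens_ext (f := (a.tensL Y).act 1) (g := LinearMap.id) (fun x y => ?_) v
    rw [LA.tensL_act, ha]
    rfl
  r_one := fun v => by
    refine tens_ext (f := (b.tensR X).act.flip 1) (g := LinearMap.id) (fun x y => ?_) v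
    change (b.tensR X).act (x ⊗ₜ[k] y) 1 = _
    rw [RA.tensR_act, hb]
    rfl

/-- the product of two maps -/
def tBf {A B : DGA k} {X Y X' Y' : SD k} {a : LA A X} {ha : ∀ x, a.act 1 x = x}
    {b : RA B Y} {hb : ∀ y, b.act y 1 = y} {a' : LA A X'} {ha' : ∀ x, a'.act 1 x = x}
    {b' : RA B Y'} {hb' : ∀ y, b'.act y 1 = y} (f : SD.Hom X X') (g : SD.Hom Y Y')
    (hf : a.IsHom a' f) (hg : b.IsHom b' g) : BMod.Hom (tB a ha b hb) (tB a' ha' b' hb') where
  toHom := f.tens g
  isHom := H36.NX.isHom_tens f g hf hg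

/-- a module with zero differential, even -/
abbrev xSD (k S : Type) [Field k] [AddCommGroup S] [Module k S] : SD k where
  V := S
  D := 0
  P := LinearMap.id
  DD _ := rfl
  PP _ := rfl
  DP v := by simp

theorem xSD_D (S : Type) [AddCommGroup S] [Module k S] (v : (xSD k S).V) : (xSD k S).D v = 0 := rfl
theorem xSD_P (S : Type) [AddCommGroup S] [Module k S] (v : (xSD k S).V) : (xSD k S).P v = v := rfl

/-- a linear map, as a map of differential modules -/
def xH {S S' : Type} [AddCommGroup S] [Module k S] [AddCommGroup S'] [Module k S']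
    (φ : S →ₗ[k] S') : SD.Hom (xSD k S) (xSD k S') where
  f := φ
  D _ := map_zero φ
  P _ := rfl

/-- a map of dg algebras to the matrices over `T` -/
structure MT (A : DGA k) (T : Type) [CommRing T] [Algebra k T] where
  f : A.V →ₗ[k] Matrix (Fin 2) (Fin 2) T
  mul : ∀ a b, f (a * b) = f a * f b
  one : f 1 = 1
  P : ∀ a, f (A.P a) = f a
  D : ∀ a, f (A.D a) = 0

namespace MT

variable {A : DGA k} {T T' : Type} [CommRing T] [Algebra k T] [CommRing T'] [Algebra k T']

/-- composition with a map of algebras -/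
def map (F : MT A T) (φ : T →ₐ[k] T') : MT A T' where
  f :=
    { toFun := fun a => (F.f a).map φ
      map_add' := fun a b => by
        rw [map_add]
        exact Matrix.map_add φ (map_add φ) _ _
      map_smul' := fun c a => by
        rw [map_smul]
        ext i j
        change φ (c • F.f a i j) = c • φ (F.f a i j)
        rw [map_smul] }
  mul a b := by
    change (F.f (a * b)).map φ = (F.f a).map φ * (F.f b).map φ
    rw [F.mul]
    exact Matrix.map_mul
  one := by
    change (F.f 1).map φ = 1
    rw [F.one]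
    exact Matrix.map_one φ (map_zero φ) (map_one φ)
  P a := by
    change (F.f (A.P a)).map φ = (F.f a).map φ
    rw [F.P]
  D a := by
    change (F.f (A.D a)).map φ = 0
    rw [F.D]
    exact Matrix.map_zero φ (map_zero φ)

theorem map_f (F : MT A T) (φ : T →ₐ[k] T') (a : A.V) (i j : Fin 2) :
    (F.map φ).f a i j = φ (F.f a i j) := rfl

/-- multiplication of matrices on the left -/
def mulL (k T J : Type) [Field k] [CommRing T] [Algebra k T] :
    Matrix (Fin 2) (Fin 2) T →ₗ[k] Matrix (Fin 2) J T →ₗ[k] Matrix (Fin 2) J T :=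
  LinearMap.mk₂ k (fun a c => a * c) (fun a b c => Matrix.add_mul a b c)
    (fun x a c => Matrix.smul_mul x a c) (fun a c c' => Matrix.mul_add a c c')
    (fun x a c => Matrix.mul_smul a x c)

/-- multiplication of matrices on the right -/
def mulR (k T I : Type) [Field k] [CommRing T] [Algebra k T] :
    Matrix I (Fin 2) T →ₗ[k] Matrix (Fin 2) (Fin 2) T →ₗ[k] Matrix I (Fin 2) T :=
  LinearMap.mk₂ k (fun c a => c * a) (fun c c' a => Matrix.add_mul c c' a)
    (fun x c a => Matrix.smul_mul x c a) (fun c a b => Matrix.mul_add c a b)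
    (fun x c a => Matrix.mul_smul c x a)

theorem mulL_apply (J : Type) (a : Matrix (Fin 2) (Fin 2) T) (c : Matrix (Fin 2) J T) :
    mulL k T J a c = a * c := rfl

theorem mulR_apply (I : Type) (c : Matrix I (Fin 2) T) (a : Matrix (Fin 2) (Fin 2) T) :
    mulR k T I c a = c * a := rfl

variable (F : MT A T)

/-- the left action on matrices -/
def xL (J : Type) : LA A (xSD k (Matrix (Fin 2) J T)) where
  act := (mulL k T J).comp F.f
  mul_act a b y := by
    change F.f (a * b) * y = F.f a * (F.f b * y)
    rw [F.mul, Matrix.mul_assoc]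
  P_act a y := by
    change F.f a * y = F.f (A.P a) * y + F.f (a - A.P a) * (y - y)
    rw [F.P, sub_self, Matrix.mul_zero, add_zero]
  D_act a y := by
    change (0 : Matrix (Fin 2) J T) = F.f (A.D a) * y + F.f (A.E a) * (0 : Matrix (Fin 2) J T)
    rw [F.D, Matrix.zero_mul, Matrix.mul_zero, add_zero]

/-- the right action on matrices -/
def xR (I : Type) : RA A (xSD k (Matrix I (Fin 2) T)) where
  act := (mulR k T I).compl₂ F.f
  act_mul y a b := by
    change (y * F.f a) * F.f b = y * F.f (a * b)
    rw [F.mul, Matrix.mul_assoc]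
  P_act y a := by
    change y * F.f a = y * F.f (A.P a) + (y - y) * F.f (a - A.P a)
    rw [F.P, sub_self, Matrix.zero_mul, add_zero]
  D_act y a := by
    change (0 : Matrix I (Fin 2) T) = (0 : Matrix I (Fin 2) T) * F.f a +
      (xSD k (Matrix I (Fin 2) T)).E y * F.f (A.D a)
    rw [F.D, Matrix.zero_mul, Matrix.mul_zero, add_zero]

theorem xL_act (J : Type) (a : A.V) (y : Matrix (Fin 2) J T) : (F.xL J).act a y = F.f a * y := rfl

theorem xR_act (I : Type) (y : Matrix I (Fin 2) T) (a : A.V) : (F.xR I).act y a = y * F.f a := rfl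

theorem xL_one (J : Type) (y : Matrix (Fin 2) J T) : (F.xL J).act 1 y = y := by
  rw [xL_act, F.one, Matrix.one_mul]

theorem xR_one (I : Type) (y : Matrix I (Fin 2) T) : (F.xR I).act y 1 = y := by
  rw [xR_act, F.one, Matrix.mul_one]

/-- the bimodule of matrices -/
def bi : BMod A A where
  N := xSD k (Matrix (Fin 2) (Fin 2) T)
  b :=
    { l := F.xL (Fin 2)
      r := F.xR (Fin 2)
      lr := fun a y b => Matrix.mul_assoc (F.f a) y (F.f b) }
  one_l := fun y => F.xL_one (Fin 2) y
  r_one := fun y => F.xR_one (Fin 2) y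

/-- columns times rows -/
def cr : BMod A A := tB (F.xL Unit) (F.xL_one Unit) (F.xR Unit) (F.xR_one Unit)

/-! ### functoriality -/

/-- a linear map applied to the entries -/
def mM (k : Type) [Field k] {T T' : Type} [AddCommGroup T] [Module k T] [AddCommGroup T']
    [Module k T'] (I J : Type) (φ : T →ₗ[k] T') : Matrix I J T →ₗ[k] Matrix I J T' where
  toFun c := fun i j => φ (c i j)
  map_add' c c' := by
    ext i j
    exact map_add φ _ _
  map_smul' x c := by
    ext i j
    exact map_smul φ _ _

theorem mM_apply (I J : Type) (φ : T →ₗ[k] T') (c : Matrix I J T) (i : I) (j : J) :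
    mM k I J φ c i j = φ (c i j) := rfl

/-- a linear map `φ` between `T`-modules (compatible with two maps of `A`) commutes with the left actions -/
theorem mM_left (F' : MT A T') (φ : T →ₗ[k] T')
    (h : ∀ a i j x, φ (F.f a i j * x) = F'.f a i j * φ x) (J : Type) :
    (F.xL J).IsHom (F'.xL J) (xH (mM k (Fin 2) J φ)) := fun a y => by
  change mM k (Fin 2) J φ (F.f a * y) = F'.f a * mM k (Fin 2) J φ y
  ext i j
  rw [mM_apply, Matrix.mul_apply, Matrix.mul_apply, map_sum]
  exact Finset.sum_congr rfl fun l _ => h a i l _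

theorem mM_right (F' : MT A T') (φ : T →ₗ[k] T')
    (h : ∀ a i j x, φ (F.f a i j * x) = F'.f a i j * φ x) (I : Type) :
    (F.xR I).IsHom (F'.xR I) (xH (mM k I (Fin 2) φ)) := fun y a => by
  change mM k I (Fin 2) φ (y * F.f a) = mM k I (Fin 2) φ y * F'.f a
  ext i j
  rw [mM_apply, Matrix.mul_apply, Matrix.mul_apply, map_sum]
  refine Finset.sum_congr rfl fun l _ => ?_
  rw [mul_comm, h, mul_comm, mM_apply]

/-- a linear map, as a map of bimodules of matrices -/
def biH (F' : MT A T') (φ : T →ₗ[k] T')
    (h : ∀ a i j x, φ (F.f a i j * x) = F'.f a i j * φ x) : BMod.Hom F.bi F'.bi where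
  toHom := xH (mM k (Fin 2) (Fin 2) φ)
  isHom := ⟨mM_left F F' φ h (Fin 2), mM_right F F' φ h (Fin 2)⟩

/-- a linear map, as a map of bimodules of columns times rows -/
def crH (F' : MT A T') (φ : T →ₗ[k] T')
    (h : ∀ a i j x, φ (F.f a i j * x) = F'.f a i j * φ x) : BMod.Hom F.cr F'.cr :=
  tBf (xH (mM k (Fin 2) Unit φ)) (xH (mM k Unit (Fin 2) φ)) (mM_left F F' φ h Unit)
    (mM_right F F' φ h Unit)

theorem cr_ret (F' : MT A T') (φ : T →ₗ[k] T') (ψ : T' →ₗ[k] T)
    (h : ∀ a i j x, φ (F.f a i j * x) = F'.f a i j * φ x)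
    (h' : ∀ a i j x, ψ (F'.f a i j * x) = F.f a i j * ψ x) (hψ : ∀ x, φ (ψ x) = x)
    (hF : PF A F.cr) : PF A F'.cr := by
  refine PF.ret (F'.crH F ψ h') (F.crH F' φ h) (fun v => ?_) hF
  refine tens_ext (f := (F.crH F' φ h).f ∘ₗ (F'.crH F ψ h').f) (g := LinearMap.id)
    (fun x y => ?_) v
  change mM k (Fin 2) Unit φ (mM k (Fin 2) Unit ψ x) ⊗ₜ[k]
    mM k Unit (Fin 2) φ (mM k Unit (Fin 2) ψ y) = x ⊗ₜ[k] y
  congr 1
  · ext i j
    exact hψ _
  · ext i j
    exact hψ _

/-- a short exact sequence of bimodules of matrices -/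
theorem bi_ses {T'' : Type} [CommRing T''] [Algebra k T''] (F' : MT A T') (F'' : MT A T'')
    (φ : T →ₗ[k] T') (ψ : T' →ₗ[k] T'')
    (h : ∀ a i j x, φ (F.f a i j * x) = F'.f a i j * φ x)
    (h' : ∀ a i j x, ψ (F'.f a i j * x) = F''.f a i j * ψ x)
    (h1 : Function.Injective φ) (h2 : Function.Exact φ ψ) (h3 : Function.Surjective ψ) :
    SD.SES (F.biH F' φ h).toHom (F'.biH F'' ψ h').toHom where
  inj x hx := by
    have hx' : mM k (Fin 2) (Fin 2) φ x = 0 := hx
    refine (Matrix.ext fun i j => ?_ : (x : Matrix (Fin 2) (Fin 2) T) = 0)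
    refine h1 ?_
    have h4 : φ (x i j) = 0 := congrFun (congrFun hx' i) j
    exact h4.trans (map_zero φ).symm
  surj z := by
    choose g hg using h3
    refine ⟨fun i j => g (z i j), ?_⟩
    change mM k (Fin 2) (Fin 2) ψ _ = z
    ext i j
    exact hg _
  zero x := by
    change mM k (Fin 2) (Fin 2) ψ (mM k (Fin 2) (Fin 2) φ x) = 0
    ext i j
    exact (h2 _).2 ⟨x i j, rfl⟩
  exact y hy := by
    have hy' : mM k (Fin 2) (Fin 2) ψ y = 0 := hy
    choose g hg using fun i j => (h2 (y i j)).1 (congrFun (congrFun hy' i) j)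
    refine ⟨fun i j => g i j, ?_⟩
    change mM k (Fin 2) (Fin 2) φ _ = y
    ext i j
    exact hg i j

/-! ### separability -/

/-- a separability element of `T` -/
structure Sep (k T : Type) [Field k] [CommRing T] [Algebra k T] where
  e : T ⊗[k] T
  comm : ∀ x : T, (x ⊗ₜ[k] 1) * e = (1 ⊗ₜ[k] x) * e
  one : Algebra.TensorProduct.lmul' k (S := T) e = 1

/-- the column with the entry `x` at the place `i` -/
def colI (k T : Type) [Field k] [CommRing T] [Algebra k T] (i : Fin 2) :
    T →ₗ[k] Matrix (Fin 2) Unit T where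
  toFun x := fun l _ => if l = i then x else 0
  map_add' x y := by
    ext l a
    change (if l = i then x + y else 0) = (if l = i then x else 0) + (if l = i then y else 0)
    split_ifs
    · rfl
    · rw [add_zero]
  map_smul' c x := by
    ext l a
    change (if l = i then c • x else 0) = c • (if l = i then x else 0)
    split_ifs
    · rfl
    · rw [smul_zero]

/-- the row with the entry `x` at the place `j` -/
def rowI (k T : Type) [Field k] [CommRing T] [Algebra k T] (j : Fin 2) :
    T →ₗ[k] Matrix Unit (Fin 2) T where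
  toFun x := fun _ l => if l = j then x else 0
  map_add' x y := by
    ext a l
    change (if l = j then x + y else 0) = (if l = j then x else 0) + (if l = j then y else 0)
    split_ifs
    · rfl
    · rw [add_zero]
  map_smul' c x := by
    ext a l
    change (if l = j then c • x else 0) = c • (if l = j then x else 0)
    split_ifs
    · rfl
    · rw [smul_zero]

theorem colI_apply (i l : Fin 2) (x : T) (a : Unit) :
    colI k T i x l a = if l = i then x else 0 := rfl

theorem rowI_apply (j l : Fin 2) (x : T) (a : Unit) :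
    rowI k T j x a l = if l = j then x else 0 := rfl

theorem mul_colI (a : Matrix (Fin 2) (Fin 2) T) (l : Fin 2) (x : T) :
    a * colI k T l x = ∑ i : Fin 2, colI k T i (a i l * x) := by
  ext i b
  rw [Matrix.mul_apply, Matrix.sum_apply, Finset.sum_eq_single l, Finset.sum_eq_single i]
  · rw [colI_apply, colI_apply, if_pos rfl, if_pos rfl]
  · intro j _ hj
    rw [colI_apply, if_neg hj.symm]
  · intro h
    exact absurd (Finset.mem_univ i) h
  · intro m _ hm
    rw [colI_apply, if_neg hm, mul_zero]
  · intro h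
    exact absurd (Finset.mem_univ l) h

theorem rowI_mul (a : Matrix (Fin 2) (Fin 2) T) (l : Fin 2) (x : T) :
    rowI k T l x * a = ∑ j : Fin 2, rowI k T j (a l j * x) := by
  ext b j
  rw [Matrix.mul_apply, Matrix.sum_apply, Finset.sum_eq_single l, Finset.sum_eq_single j]
  · rw [rowI_apply, rowI_apply, if_pos rfl, if_pos rfl, mul_comm]
  · intro i _ hi
    rw [rowI_apply, if_neg hi.symm]
  · intro h
    exact absurd (Finset.mem_univ j) h
  · intro m _ hm
    rw [rowI_apply, if_neg hm, zero_mul]
  · intro h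
    exact absurd (Finset.mem_univ l) h

/-- columns times rows, the space -/
abbrev CR (k T : Type) [Field k] [CommRing T] [Algebra k T] : Type :=
  Matrix (Fin 2) Unit T ⊗[k] Matrix Unit (Fin 2) T

/-- the element `x ⊗ y` at the place `(i, j)` -/
def io (k T : Type) [Field k] [CommRing T] [Algebra k T] (i j : Fin 2) :
    T ⊗[k] T →ₗ[k] CR k T := TensorProduct.map (colI k T i) (rowI k T j)

theorem io_left (a : Matrix (Fin 2) (Fin 2) T) (l j : Fin 2) (z : T ⊗[k] T) :
    TensorProduct.map (mulL k T Unit a) LinearMap.id (io k T l j z)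
      = ∑ i : Fin 2, io k T i j ((a i l ⊗ₜ[k] 1) * z) := by
  induction z using TensorProduct.induction_on with
  | zero => simp
  | tmul x y =>
    rw [io, TensorProduct.map_tmul, TensorProduct.map_tmul, mulL_apply, mul_colI,
      TensorProduct.sum_tmul, LinearMap.id_apply]
    refine Finset.sum_congr rfl fun i _ => ?_
    rw [Algebra.TensorProduct.tmul_mul_tmul, one_mul, io, TensorProduct.map_tmul]
  | add x y hx hy =>
    rw [map_add, map_add, hx, hy, ← Finset.sum_add_distrib]
    refine Finset.sum_congr rfl fun i _ => ?_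
    rw [mul_add, map_add]

theorem io_right (a : Matrix (Fin 2) (Fin 2) T) (i l : Fin 2) (z : T ⊗[k] T) :
    TensorProduct.map LinearMap.id ((mulR k T Unit).flip a) (io k T i l z)
      = ∑ j : Fin 2, io k T i j ((1 ⊗ₜ[k] a l j) * z) := by
  induction z using TensorProduct.induction_on with
  | zero => simp
  | tmul x y =>
    rw [io, TensorProduct.map_tmul, TensorProduct.map_tmul, LinearMap.flip_apply, mulR_apply,
      rowI_mul, TensorProduct.tmul_sum, LinearMap.id_apply]
    refine Finset.sum_congr rfl fun i _ => ?_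
    rw [Algebra.TensorProduct.tmul_mul_tmul, one_mul, io, TensorProduct.map_tmul]
  | add x y hx hy =>
    rw [map_add, map_add, hx, hy, ← Finset.sum_add_distrib]
    refine Finset.sum_congr rfl fun i _ => ?_
    rw [mul_add, map_add]

/-- the section -/
def sS (e : T ⊗[k] T) : Matrix (Fin 2) (Fin 2) T →ₗ[k] CR k T where
  toFun M := ∑ i : Fin 2, ∑ j : Fin 2, io k T i j ((M i j ⊗ₜ[k] 1) * e)
  map_add' M N := by
    rw [← Finset.sum_add_distrib]
    refine Finset.sum_congr rfl fun i _ => ?_
    rw [← Finset.sum_add_distrib]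
    refine Finset.sum_congr rfl fun j _ => ?_
    rw [Matrix.add_apply, TensorProduct.add_tmul, add_mul, map_add]
  map_smul' c M := by
    rw [RingHom.id_apply, Finset.smul_sum]
    refine Finset.sum_congr rfl fun i _ => ?_
    rw [Finset.smul_sum]
    refine Finset.sum_congr rfl fun j _ => ?_
    change io k T i j (((c • M i j) ⊗ₜ[k] 1) * e) = c • io k T i j ((M i j ⊗ₜ[k] 1) * e)
    rw [← TensorProduct.smul_tmul', smul_mul_assoc, map_smul]

theorem sS_apply (e : T ⊗[k] T) (M : Matrix (Fin 2) (Fin 2) T) :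
    sS e M = ∑ i : Fin 2, ∑ j : Fin 2, io k T i j ((M i j ⊗ₜ[k] 1) * e) := rfl

theorem sS_left (e : T ⊗[k] T) (a M : Matrix (Fin 2) (Fin 2) T) :
    sS e (a * M) = TensorProduct.map (mulL k T Unit a) LinearMap.id (sS e M) := by
  rw [sS_apply, sS_apply, map_sum]
  have h1 : ∀ l : Fin 2, TensorProduct.map (mulL k T Unit a) LinearMap.id
      (∑ j : Fin 2, io k T l j ((M l j ⊗ₜ[k] 1) * e))
      = ∑ i : Fin 2, ∑ j : Fin 2, io k T i j ((a i l * M l j) ⊗ₜ[k] 1 * e) := by
    intro l
    rw [map_sum, Finset.sum_comm]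
    refine Finset.sum_congr rfl fun j _ => ?_
    rw [io_left]
    refine Finset.sum_congr rfl fun i _ => ?_
    rw [← mul_assoc, Algebra.TensorProduct.tmul_mul_tmul, one_mul]
  rw [Finset.sum_congr rfl (fun l _ => h1 l)]
  conv_rhs => rw [Finset.sum_comm]
  refine Finset.sum_congr rfl fun i _ => ?_
  conv_rhs => rw [Finset.sum_comm]
  refine Finset.sum_congr rfl fun j _ => ?_
  rw [Matrix.mul_apply, TensorProduct.sum_tmul, Finset.sum_mul, map_sum]

theorem sS_right (E : Sep k T) (M a : Matrix (Fin 2) (Fin 2) T) :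
    sS E.e (M * a) = TensorProduct.map LinearMap.id ((mulR k T Unit).flip a) (sS E.e M) := by
  rw [sS_apply, sS_apply, map_sum]
  refine Finset.sum_congr rfl fun i _ => ?_
  rw [map_sum]
  have h1 : ∀ l : Fin 2, TensorProduct.map LinearMap.id ((mulR k T Unit).flip a)
      (io k T i l ((M i l ⊗ₜ[k] 1) * E.e))
      = ∑ j : Fin 2, io k T i j ((M i l * a l j) ⊗ₜ[k] 1 * E.e) := by
    intro l
    rw [io_right]
    refine Finset.sum_congr rfl fun j _ => ?_
    congr 1
    rw [mul_left_comm, ← E.comm, ← mul_assoc, Algebra.TensorProduct.tmul_mul_tmul, one_mul]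
  rw [Finset.sum_congr rfl (fun l _ => h1 l), Finset.sum_comm]
  refine Finset.sum_congr rfl fun j _ => ?_
  rw [Matrix.mul_apply, TensorProduct.sum_tmul, Finset.sum_mul, map_sum]

/-- column times row -/
def piL (k T : Type) [Field k] [CommRing T] [Algebra k T] : Matrix (Fin 2) Unit T →ₗ[k]
    Matrix Unit (Fin 2) T →ₗ[k] Matrix (Fin 2) (Fin 2) T :=
  LinearMap.mk₂ k (fun c r => c * r) (fun c c' r => Matrix.add_mul c c' r)
    (fun x c r => Matrix.smul_mul x c r) (fun c r r' => Matrix.mul_add c r r')
    (fun x c r => Matrix.mul_smul c x r)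

/-- the retraction -/
def sP (k T : Type) [Field k] [CommRing T] [Algebra k T] : CR k T →ₗ[k]
    Matrix (Fin 2) (Fin 2) T := TensorProduct.lift (piL k T)

theorem sP_tmul (c : Matrix (Fin 2) Unit T) (r : Matrix Unit (Fin 2) T) :
    sP k T (c ⊗ₜ[k] r) = c * r := rfl

theorem sP_left (a : Matrix (Fin 2) (Fin 2) T) (z : CR k T) :
    sP k T (TensorProduct.map (mulL k T Unit a) LinearMap.id z) = a * sP k T z := by
  induction z using TensorProduct.induction_on with
  | zero => simp
  | tmul c r =>
    rw [TensorProduct.map_tmul, sP_tmul, sP_tmul, mulL_apply, Matrix.mul_assoc]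
    rfl
  | add x y hx hy => rw [map_add, map_add, map_add, hx, hy, Matrix.mul_add]

theorem sP_right (a : Matrix (Fin 2) (Fin 2) T) (z : CR k T) :
    sP k T (TensorProduct.map LinearMap.id ((mulR k T Unit).flip a) z) = sP k T z * a := by
  induction z using TensorProduct.induction_on with
  | zero => simp
  | tmul c r =>
    rw [TensorProduct.map_tmul, sP_tmul, sP_tmul, LinearMap.flip_apply, mulR_apply,
      Matrix.mul_assoc]
    rfl
  | add x y hx hy => rw [map_add, map_add, map_add, hx, hy, Matrix.add_mul]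

theorem sP_io (i j : Fin 2) (z : T ⊗[k] T) (i' j' : Fin 2) :
    sP k T (io k T i j z) i' j' =
      if i' = i ∧ j' = j then Algebra.TensorProduct.lmul' k (S := T) z else 0 := by
  induction z using TensorProduct.induction_on with
  | zero => simp
  | tmul x y =>
    rw [io, TensorProduct.map_tmul, sP_tmul, Matrix.mul_apply]
    simp only [Finset.univ_unique, Finset.sum_singleton, colI_apply, rowI_apply]
    by_cases h1 : i' = i
    · by_cases h2 : j' = j
      · rw [if_pos h1, if_pos h2, if_pos ⟨h1, h2⟩]
        rfl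
      · rw [if_neg h2, mul_zero, if_neg (fun h => h2 h.2)]
    · rw [if_neg h1, zero_mul, if_neg (fun h => h1 h.1)]
  | add x y hx hy =>
    rw [map_add, map_add, Matrix.add_apply, hx, hy]
    split_ifs
    · rw [map_add]
    · rw [add_zero]

theorem sP_sS (E : Sep k T) (M : Matrix (Fin 2) (Fin 2) T) : sP k T (sS E.e M) = M := by
  ext i' j'
  rw [sS_apply, map_sum, Matrix.sum_apply, Finset.sum_eq_single i']
  · rw [map_sum, Matrix.sum_apply, Finset.sum_eq_single j']
    · rw [sP_io, if_pos ⟨rfl, rfl⟩, map_mul, E.one, mul_one]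
      change M i' j' * 1 = _
      rw [mul_one]
    · intro j _ hj
      rw [sP_io, if_neg (fun h => hj h.2.symm)]
    · intro h
      exact absurd (Finset.mem_univ j') h
  · intro i _ hi
    rw [map_sum, Matrix.sum_apply]
    refine Finset.sum_eq_zero fun j _ => ?_
    rw [sP_io, if_neg (fun h => hi h.1.symm)]
  · intro h
    exact absurd (Finset.mem_univ i') h

theorem cr_D (v : F.cr.N.V) : F.cr.N.D v = 0 := by
  refine tens_ext (f := SD.tD (xSD k (Matrix (Fin 2) Unit T))
    (xSD k (Matrix Unit (Fin 2) T))) (g := 0) (fun x y => ?_) v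
  rw [SD.tD_tmul, xSD_D, xSD_D, TensorProduct.zero_tmul, TensorProduct.tmul_zero, add_zero]
  rfl

theorem cr_P (v : F.cr.N.V) : F.cr.N.P v = v := by
  refine tens_ext (f := SD.tP (xSD k (Matrix (Fin 2) Unit T))
    (xSD k (Matrix Unit (Fin 2) T))) (g := LinearMap.id) (fun x y => ?_) v
  rw [SD.tP_tmul, xSD_P, xSD_P, sub_self, TensorProduct.zero_tmul, add_zero]
  rfl

/-- the section, as a map of bimodules -/
def sSB (E : Sep k T) : BMod.Hom F.bi F.cr where
  f := sS E.e
  D v := by
    have h := F.cr_D (sS E.e v)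
    have h' : sS E.e (0 : Matrix (Fin 2) (Fin 2) T) = 0 := map_zero _
    exact h'.trans h.symm
  P v := (F.cr_P (sS E.e v)).symm
  isHom := ⟨fun a v => sS_left E.e (F.f a) v, fun v a => sS_right E v (F.f a)⟩

/-- the retraction, as a map of bimodules -/
def sPB : BMod.Hom F.cr F.bi where
  f := sP k T
  D v := by
    have h' : sP k T (F.cr.N.D v) = sP k T 0 := congrArg (sP k T) (F.cr_D v)
    exact h'.trans (map_zero _)
  P v := congrArg (sP k T) (F.cr_P v)
  isHom := ⟨fun a v => sP_left (F.f a) v, fun v a => sP_right (F.f a) v⟩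

/-- **separability**: the bimodule of matrices is perfect if the product of columns and rows is -/
theorem PF_bi (E : Sep k T) (h : PF A F.cr) : PF A F.bi :=
  PF.ret (F.sSB E) F.sPB (fun x => sP_sS E x) h

end MT

end H82.EE
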