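import Pool.Agent.H2.EE.XV
import Pool.Agent.H2.EE.RegY
import Pool.Agent.H82.EE.Sep

/-!
# RegQ : quotients by the multiples of a section which does not vanish at infinity

The quotient of a complex of Čech matrices by the multiples of `s` is quasi-isomorphic, through the component on the
chart `X`, to the matrices over `X / s X`.
-/

set_option autoImplicit false

open NC

namespace H82.EE

open H36.NX _root_.EE

variable {k : Type} [Field k] {q : ℕ} {R : Type} [CommRing R] [Algebra k R]

/-- the component of an element of `A` on the chart `X` -/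
noncomputable def axS (C : ERing k q R) : MT (AA C) C.U where
  f :=
    { toFun := fun a => fun i j => ⟨av C a Pc.X i j, av_mem C a Pc.X i j⟩
      map_add' := fun a b => by
        ext i j
        exact congrFun (congrFun (congrFun (map_add (av C) a b) Pc.X) i) j
      map_smul' := fun c a => by
        ext i j
        exact congrFun (congrFun (congrFun (map_smul (av C) c a) Pc.X) i) j }
  mul a b := by
    ext i j
    change av C (a * b) Pc.X i j = C.U.val
      (∑ l : Fin 2, (⟨av C a Pc.X i l, av_mem C a Pc.X i l⟩ : C.U) *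
        ⟨av C b Pc.X l j, av_mem C b Pc.X l j⟩)
    rw [av_mul, map_sum, cMul_X, matMul_apply, Matrix.mul_apply]
    rfl
  one := by
    ext i j
    change av C 1 Pc.X i j = C.U.val ((1 : Matrix (Fin 2) (Fin 2) C.U) i j)
    rw [av_one, cOne_X, Matrix.one_apply, Matrix.one_apply]
    split_ifs
    · rw [map_one]
    · rw [map_zero]
  P _ := rfl
  D _ := rfl

theorem axS_apply (C : ERing k q R) (a : (AA C).V) (i j : Fin 2) :
    (((axS C).f a i j : C.U) : R) = av C a Pc.X i j := rfl

/-- the quotient of the ring of the chart `X` by the multiples of `s` -/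
abbrev TX (C : ERing k q R) (s : R) (h : s ∈ C.X) : Type := C.U ⧸ Ideal.span {C.uX h}

/-- the map of `A` to the matrices over `X / I` -/
noncomputable def axI (C : ERing k q R) (I : Ideal C.U) : MT (AA C) (C.U ⧸ I) :=
  (axS C).map (Ideal.Quotient.mkₐ k I)

theorem axI_apply (C : ERing k q R) (I : Ideal C.U) (a : (AA C).V) (i j : Fin 2) :
    (axI C I).f a i j = Ideal.Quotient.mk I ((axS C).f a i j) := rfl

/-- linear maps between quotients of `X` are compatible with the maps of `A` -/
theorem axI_lin (C : ERing k q R) (I I' : Ideal C.U) (φ : (C.U ⧸ I) →ₗ[C.U] (C.U ⧸ I'))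
    (a : (AA C).V) (i j : Fin 2) (x : C.U ⧸ I) :
    (φ.restrictScalars k) ((axI C I).f a i j * x)
      = (axI C I').f a i j * (φ.restrictScalars k) x := by
  have h1 : (axI C I).f a i j * x = ((axS C).f a i j) • x := rfl
  have h2 : (axI C I').f a i j * (φ.restrictScalars k) x = ((axS C).f a i j) • φ x := rfl
  rw [h2, h1]
  exact map_smul φ _ _

section

variable {I J : Type} (C : ERing k q R) {α α' : I → ℤ} {β β' : J → ℤ} {s : R} {d : ℤ}

/-- the components on the chart `X` modulo `s` -/
noncomputable def evT (hx : s ∈ C.X) (α : I → ℤ) (β : J → ℤ) :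
    SD.Hom (qSD C α β) (xSD k (Matrix I J (TX C s hx))) where
  f :=
    { toFun := fun v => fun i j =>
        Ideal.Quotient.mk (Ideal.span {C.uX hx}) ⟨qv C α β v Pc.X i j, qv_mem C v Pc.X i j⟩
      map_add' := fun _ _ => rfl
      map_smul' := fun _ _ => rfl }
  D _ := rfl
  P _ := rfl

theorem evT_apply (hx : s ∈ C.X) (v : (qSD C α β).V) (i : I) (j : J) :
    (evT C hx α β).f v i j =
      Ideal.Quotient.mk (Ideal.span {C.uX hx}) ⟨qv C α β v Pc.X i j, qv_mem C v Pc.X i j⟩ := rfl

theorem evT_eq_zero (hx : s ∈ C.X) (v : (qSD C α β).V) (h : (evT C hx α β).f v = 0) (i : I)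
    (j : J) : ∃ x ∈ C.X, qv C α β v Pc.X i j = s * x := by
  have h1 : (evT C hx α β).f v i j = 0 := congrFun (congrFun h i) j
  rw [evT_apply, Ideal.Quotient.eq_zero_iff_mem, Ideal.mem_span_singleton] at h1
  obtain ⟨y, hy⟩ := h1
  exact ⟨y.1, y.2, congrArg Subtype.val hy⟩

theorem evT_of_mul (hx : s ∈ C.X) (v : (qSD C α β).V) (w : (qSD C α' β').V)
    (h : qv C α' β' w = smulR k I J s (qv C α β v)) : (evT C hx α' β').f w = 0 := by
  refine (Matrix.ext fun i j => ?_ : (_ : Matrix I J (TX C s hx)) = 0)
  rw [evT_apply]
  change _ = (0 : TX C s hx)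
  rw [Ideal.Quotient.eq_zero_iff_mem, Ideal.mem_span_singleton]
  exact ⟨⟨qv C α β v Pc.X i j, qv_mem C v Pc.X i j⟩, Subtype.ext
    (congrFun (congrFun (congrFun h Pc.X) i) j)⟩

theorem s_inj (hr : RegY C s d) (g : SD.Hom (qSD C α β) (qSD C α' β'))
    (hg : ∀ v, qv C α' β' (g.f v) = smulR k I J s (qv C α β v)) :
    Function.Injective g.f := by
  rw [injective_iff_map_eq_zero]
  intro x hx
  refine q_ext C ?_
  rw [map_zero]
  funext p
  ext i j
  refine hr.inj _ ?_
  have h1 := hg x
  rw [hx, map_zero] at h1
  exact (congrFun (congrFun (congrFun h1 p) i) j).symm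

/-- **the quotient by the multiples of `s`** is quasi-isomorphic to the matrices over `X / s X` -/
theorem qi_reg (hr : RegY C s d) (h : ∀ i j, β j - α i + d = β' j - α' i)
    (g : SD.Hom (qSD C α β) (qSD C α' β'))
    (hg : ∀ v, qv C α' β' (g.f v) = smulR k I J s (qv C α β v))
    (N : SD k) (π : SD.Hom (qSD C α' β') N) (hπ : Function.Surjective π.f)
    (hker : ∀ v, π.f v = 0 ↔ ∃ x, g.f x = v)
    (e : SD.Hom N (xSD k (Matrix I J (TX C s hr.memX))))
    (he : ∀ v, e.f (π.f v) = (evT C hr.memX α' β').f v) : e.QI := by
  constructor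
  · intro x y hx hxy
    obtain ⟨v, rfl⟩ := hπ x
    have h1 : (evT C hr.memX α' β').f v = 0 := by
      rw [← he, hxy]
      rfl
    have h2 : π.f ((qSD C α' β').D v) = 0 := by rw [π.D, hx]
    obtain ⟨v2, hv2⟩ := (hker _).1 h2
    -- the difference of the components is a multiple of `s`
    have h3 : ∀ i j, qv C α' β' v Pc.Y i j - qv C α' β' v Pc.X i j
        = s * qv C α β v2 Pc.R i j := by
      intro i j
      have h4 : qv C α' β' ((qSD C α' β').D v) Pc.R i j = qv C α' β' (g.f v2) Pc.R i j := by
        rw [hv2]
      rw [hg, qv_D, cD_R, smulR_apply] at h4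
      exact h4
    choose a ha1 ha2 using fun i j => evT_eq_zero C hr.memX v h1 i j
    have h5 : ∀ i j, qv C α' β' v Pc.Y i j = s * (a i j + qv C α β v2 Pc.R i j) := by
      intro i j
      rw [mul_add, ← ha2, ← h3]
      ring
    choose y hy1 z hz using fun i j => hr.supY (β' j - α' i) (qv C α' β' v Pc.R i j)
    -- `v = g (a, a + v2, z) + D (0, y, 0)`
    let m : (qSD C α β).V := qmk C α β (fun p => match p with
        | Pc.X => fun i j => a i j
        | Pc.Y => fun i j => a i j + qv C α β v2 Pc.R i j
        | Pc.R => fun i j => z i j) (fun p i j => by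
      cases p with
      | X => exact ha1 i j
      | Y =>
        refine hr.infY (h i j) ?_
        rw [← h5]
        exact qv_mem C v Pc.Y i j
      | R => exact Submodule.mem_top)
    let n : (qSD C α' β').V := qmk C α' β' (fun p => match p with
        | Pc.X => fun _ _ => 0
        | Pc.Y => fun i j => y i j
        | Pc.R => fun _ _ => 0) (fun p i j => by
      cases p with
      | X => exact C.X.zero_mem
      | Y => exact hy1 i j
      | R => exact Submodule.mem_top)
    have hv : v = g.f m + (qSD C α' β').D n := by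
      refine q_ext C ?_
      rw [map_add, hg, qv_D]
      funext p
      ext i j
      cases p with
      | X =>
        change qv C α' β' v Pc.X i j = s * a i j + 0
        rw [add_zero, ha2]
      | Y =>
        change qv C α' β' v Pc.Y i j = s * (a i j + qv C α β v2 Pc.R i j) + 0
        rw [add_zero, h5]
      | R =>
        change qv C α' β' v Pc.R i j = s * z i j + (y i j - 0)
        rw [hz, sub_zero, add_comm]
    refine ⟨π.f n, ?_⟩
    rw [hv, map_add, (hker (g.f m)).2 ⟨m, rfl⟩, zero_add, π.D]
  · intro y _
    have hs : ∀ i j, ∃ x : C.U, Ideal.Quotient.mk (Ideal.span {C.uX hr.memX}) x = y i j :=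
      fun i j => Ideal.Quotient.mk_surjective _
    choose x hx using hs
    choose b hb1 z hz using fun i j => hr.supY (β' j - α' i) (x i j : R)
    let n : (qSD C α' β').V := qmk C α' β' (fun p => match p with
        | Pc.X => fun i j => (x i j : R)
        | Pc.Y => fun i j => b i j
        | Pc.R => fun _ _ => 0) (fun p i j => by
      cases p with
      | X => exact (x i j).2
      | Y => exact hb1 i j
      | R => exact Submodule.mem_top)
    let m : (qSD C α β).V := qmk C α β (fun p => match p with
        | Pc.X => fun _ _ => 0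
        | Pc.Y => fun _ _ => 0
        | Pc.R => fun i j => - z i j) (fun p i j => by
      cases p with
      | X => exact C.X.zero_mem
      | Y => exact (C.Y _).zero_mem
      | R => exact Submodule.mem_top)
    refine ⟨π.f n, 0, ?_, ?_⟩
    · rw [← π.D, hker]
      refine ⟨m, q_ext C ?_⟩
      rw [hg, qv_D]
      funext p
      ext i j
      cases p with
      | X =>
        change s * 0 = (0 : R)
        rw [mul_zero]
      | Y =>
        change s * 0 = (0 : R)
        rw [mul_zero]
      | R =>
        change s * (- z i j) = b i j - (x i j : R)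
        rw [hz]
        ring
    · rw [map_zero, add_zero, he]
      refine (Matrix.ext fun i j => ?_ : (y : Matrix I J (TX C s hr.memX)) = _)
      rw [evT_apply, ← hx]
      rfl

end

end H82.EE
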